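import Mathlib

set_option autoImplicit false

/-!
# A shortest flip path between two 2-triangulations of the octagon can flip a common edge
-/

namespace Pool.Agent.Results.MP_1d99bd_co.CommonEdgeFlipped

/-- Two edges `(i, j)` and `(a, b)` (with `i < j` and `a < b`) of the convex polygon with vertices
`0, 1, …, n - 1` in cyclic order cross if their endpoints are distinct and alternate. -/
def Cross {n : ℕ} (e f : Fin n × Fin n) : Prop :=
  (e.1 < f.1 ∧ f.1 < e.2 ∧ e.2 < f.2) ∨ (f.1 < e.1 ∧ e.1 < f.2 ∧ f.2 < e.2)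

instance {n : ℕ} (e f : Fin n × Fin n) : Decidable (Cross e f) := by
  unfold Cross; infer_instance

/-- `T` is a set of edges (sides or diagonals, each written as a pair `(i, j)` with `i < j`)
of the convex `n`-gon. -/
def IsEdgeSet {n : ℕ} (T : Finset (Fin n × Fin n)) : Prop := ∀ e ∈ T, e.1 < e.2

/-- `T` contains no `k + 1` pairwise crossing edges. -/
def CrossFree (k : ℕ) {n : ℕ} (T : Finset (Fin n × Fin n)) : Prop :=
  ¬ ∃ C ⊆ T, C.card = k + 1 ∧ ∀ e ∈ C, ∀ f ∈ C, e ≠ f → Cross e f

/-- A `k`-triangulation of the convex `n`-gon: an inclusion-maximal set of edges with no `k + 1`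
pairwise crossing edges. -/
def IsKTriangulation (k : ℕ) {n : ℕ} (T : Finset (Fin n × Fin n)) : Prop :=
  IsEdgeSet T ∧ CrossFree k T ∧
    ∀ T' : Finset (Fin n × Fin n), IsEdgeSet T' → CrossFree k T' → T ⊆ T' → T' = T

/-- The `k`-triangulations of the convex `n`-gon. -/
abbrev KTri (k n : ℕ) := {T : Finset (Fin n × Fin n) // IsKTriangulation k T}

/-- The flip graph on the `k`-triangulations of the convex `n`-gon: two of them are adjacent if
they differ by a flip, that is, if one is obtained from the other by exchanging one edge for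
another edge. -/
def flipGraph (k n : ℕ) : SimpleGraph (KTri k n) where
  Adj S T := (S.1 \ T.1).card = 1 ∧ (T.1 \ S.1).card = 1
  symm := ⟨fun _ _ h => ⟨h.2, h.1⟩⟩
  loopless := ⟨fun S h => by simp at h⟩

lemma cross_irrefl {n : ℕ} (e : Fin n × Fin n) : ¬ Cross e e := by
  rintro (h | h)
  · exact lt_irrefl _ h.1
  · exact lt_irrefl _ h.1

lemma cross_symm {n : ℕ} {e f : Fin n × Fin n} (h : Cross e f) : Cross f e := by
  rcases h with h | h
  · exact Or.inr h
  · exact Or.inl h

lemma not_crossFree_of {n : ℕ} {T : Finset (Fin n × Fin n)} {e f g : Fin n × Fin n}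
    (he : e ∈ T) (hf : f ∈ T) (hg : g ∈ T) (h1 : Cross e f) (h2 : Cross e g) (h3 : Cross f g) :
    ¬ CrossFree 2 T := by
  intro h
  apply h
  have hef : e ≠ f := fun h => cross_irrefl e (by rw [← h] at h1; exact h1)
  have heg : e ≠ g := fun h => cross_irrefl e (by rw [← h] at h2; exact h2)
  have hfg : f ≠ g := fun h => cross_irrefl f (by rw [← h] at h3; exact h3)
  refine ⟨{e, f, g}, ?_, ?_, ?_⟩
  · intro x hx
    simp only [Finset.mem_insert, Finset.mem_singleton] at hx
    rcases hx with rfl | rfl | rfl <;> assumption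
  · exact Finset.card_eq_three.mpr ⟨e, f, g, hef, heg, hfg, rfl⟩
  · intro x hx y hy hxy
    simp only [Finset.mem_insert, Finset.mem_singleton] at hx hy
    rcases hx with rfl | rfl | rfl <;> rcases hy with rfl | rfl | rfl <;>
      first
        | exact absurd rfl hxy
        | assumption
        | (apply cross_symm; assumption)

/-- Computable certificate for 2-triangulations. -/
def Chk {n : ℕ} (L : List (Fin n × Fin n)) : Bool :=
  (L.all fun e => decide (e.1 < e.2)) &&
  (L.all fun e => L.all fun f => !(decide (Cross e f)) ||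
    L.all fun g => !(decide (Cross e g)) || !(decide (Cross f g))) &&
  ((List.finRange n).all fun a => (List.finRange n).all fun b => !(decide (a < b)) ||
    L.contains (a, b) || L.any fun f => decide (Cross (a, b) f) &&
      L.any fun g => decide (Cross (a, b) g) && decide (Cross f g))

lemma isKTri_of_chk {n : ℕ} (L : List (Fin n × Fin n)) (h : Chk L = true) :
    IsKTriangulation 2 L.toFinset := by
  simp only [Chk, Bool.and_eq_true, List.all_eq_true, List.any_eq_true, decide_eq_true_eq,
    Bool.or_eq_true, Bool.not_eq_true', decide_eq_false_iff_not, List.mem_finRange,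
    List.contains_iff_mem, forall_true_left] at h
  obtain ⟨⟨h1, h2⟩, h3⟩ := h
  refine ⟨?_, ?_, ?_⟩
  · intro e he
    exact h1 e (List.mem_toFinset.mp he)
  · rintro ⟨C, hC, hcard, hcross⟩
    obtain ⟨e, f, g, hef, heg, hfg, rfl⟩ := Finset.card_eq_three.mp hcard
    have he := List.mem_toFinset.mp (hC (by simp : e ∈ ({e, f, g} : Finset _)))
    have hf := List.mem_toFinset.mp (hC (by simp : f ∈ ({e, f, g} : Finset _)))
    have hg := List.mem_toFinset.mp (hC (by simp : g ∈ ({e, f, g} : Finset _)))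
    have c1 := hcross e (by simp) f (by simp) hef
    have c2 := hcross e (by simp) g (by simp) heg
    have c3 := hcross f (by simp) g (by simp) hfg
    rcases h2 e he f hf with h | h
    · exact h c1
    · rcases h g hg with h | h
      · exact h c2
      · exact h c3
  · intro T' hT' hfree hsub
    refine (Finset.Subset.antisymm hsub ?_).symm
    rintro ⟨a, b⟩ hab
    by_contra hn
    have hlt : a < b := hT' _ hab
    rcases h3 a b with (h | h) | h
    · exact h hlt
    · exact hn (List.mem_toFinset.mpr h)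
    · obtain ⟨f, hf, c1, g, hg, c2, c3⟩ := h
      exact not_crossFree_of hab (hsub (List.mem_toFinset.mpr hf))
        (hsub (List.mem_toFinset.mpr hg)) c1 c2 c3 hfree

/-- The edges of the octagon which belong to every 2-triangulation. -/
def base : List (Fin 8 × Fin 8) :=
  [(0, 1), (1, 2), (2, 3), (3, 4), (4, 5), (5, 6), (6, 7), (0, 7),
   (0, 2), (1, 3), (2, 4), (3, 5), (4, 6), (5, 7), (0, 6), (1, 7)]

def L0 : List (Fin 8 × Fin 8) := [(0, 3), (0, 4), (0, 5), (1, 4), (3, 6), (3, 7)] ++ base
def L1 : List (Fin 8 × Fin 8) := [(0, 3), (0, 4), (0, 5), (1, 4), (1, 6), (3, 6)] ++ base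
def L2 : List (Fin 8 × Fin 8) := [(0, 3), (0, 4), (0, 5), (1, 6), (2, 6), (3, 6)] ++ base
def L3 : List (Fin 8 × Fin 8) := [(0, 3), (0, 5), (1, 6), (2, 5), (2, 6), (3, 6)] ++ base
def L4 : List (Fin 8 × Fin 8) := [(0, 3), (1, 6), (2, 5), (2, 6), (3, 6), (3, 7)] ++ base

def A0 : KTri 2 8 := ⟨L0.toFinset, isKTri_of_chk L0 (by decide +kernel)⟩
def A1 : KTri 2 8 := ⟨L1.toFinset, isKTri_of_chk L1 (by decide +kernel)⟩
def A2 : KTri 2 8 := ⟨L2.toFinset, isKTri_of_chk L2 (by decide +kernel)⟩
def A3 : KTri 2 8 := ⟨L3.toFinset, isKTri_of_chk L3 (by decide +kernel)⟩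
def A4 : KTri 2 8 := ⟨L4.toFinset, isKTri_of_chk L4 (by decide +kernel)⟩

lemma adj01 : (flipGraph 2 8).Adj A0 A1 := by
  show (L0.toFinset \ L1.toFinset).card = 1 ∧ (L1.toFinset \ L0.toFinset).card = 1
  decide +kernel
lemma adj12 : (flipGraph 2 8).Adj A1 A2 := by
  show (L1.toFinset \ L2.toFinset).card = 1 ∧ (L2.toFinset \ L1.toFinset).card = 1
  decide +kernel
lemma adj23 : (flipGraph 2 8).Adj A2 A3 := by
  show (L2.toFinset \ L3.toFinset).card = 1 ∧ (L3.toFinset \ L2.toFinset).card = 1
  decide +kernel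
lemma adj34 : (flipGraph 2 8).Adj A3 A4 := by
  show (L3.toFinset \ L4.toFinset).card = 1 ∧ (L4.toFinset \ L3.toFinset).card = 1
  decide +kernel

/-- Along a flip path from `X` to `Y` at least `|X \ Y|` flips are made. -/
lemma card_le_length {k n : ℕ} {X Y : KTri k n} (p : (flipGraph k n).Walk X Y) :
    (X.1 \ Y.1).card ≤ p.length := by
  induction p with
  | nil => simp
  | @cons u v w h p ih =>
    have h1 : (u.1 \ v.1).card = 1 := h.1
    have h2 : u.1 \ w.1 ⊆ (u.1 \ v.1) ∪ (v.1 \ w.1) := by
      intro x hx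
      simp only [Finset.mem_union, Finset.mem_sdiff] at hx ⊢
      by_cases hv : x ∈ v.1
      · exact Or.inr ⟨hv, hx.2⟩
      · exact Or.inl ⟨hx.1, hv⟩
    have h3 := (Finset.card_le_card h2).trans (Finset.card_union_le _ _)
    rw [SimpleGraph.Walk.length_cons]
    omega

/-- None of the nine exchanges of an edge of `A0` not in `A4` for an edge of `A4` not in `A0`
keeps `A0` free of three pairwise crossing edges. -/
lemma exchange (v w : Fin 8 × Fin 8) (hv : v ∈ L0.toFinset \ L4.toFinset)
    (hw : w ∈ L4.toFinset \ L0.toFinset) :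
    ¬ CrossFree 2 (insert w (L0.toFinset.erase v)) := by
  have key : ∀ v ∈ L0.toFinset \ L4.toFinset, ∀ w ∈ L4.toFinset \ L0.toFinset,
      ∃ f ∈ L0.toFinset.erase v, ∃ g ∈ L0.toFinset.erase v,
        Cross w f ∧ Cross w g ∧ Cross f g := by
    decide +kernel
  obtain ⟨f, hf, g, hg, h1, h2, h3⟩ := key v hv w hw
  exact not_crossFree_of (Finset.mem_insert_self _ _) (Finset.mem_insert_of_mem hf)
    (Finset.mem_insert_of_mem hg) h1 h2 h3

lemma walk_split {k n : ℕ} {S T : KTri k n} (p : (flipGraph k n).Walk S T) (h : S ≠ T) :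
    ∃ X : KTri k n, (flipGraph k n).Adj S X ∧
      ∃ q : (flipGraph k n).Walk X T, p.length = q.length + 1 := by
  cases p with
  | nil => exact absurd rfl h
  | cons h q => exact ⟨_, h, q, by simp⟩

lemma four_le (p : (flipGraph 2 8).Walk A0 A4) : 4 ≤ p.length := by
  by_contra hlt
  push Not at hlt
  have hcard : (A0.1 \ A4.1).card = 3 := by
    show (L0.toFinset \ L4.toFinset).card = 3
    decide +kernel
  obtain ⟨X, h, q, hpq⟩ := walk_split p (by
    rintro h
    rw [h] at hcard
    simp at hcard)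
  · have hq : q.length ≤ 2 := by omega
    have hX : (X.1 \ A4.1).card ≤ 2 := (card_le_length q).trans hq
    obtain ⟨v, hv⟩ := Finset.card_eq_one.mp h.1
    obtain ⟨w, hw⟩ := Finset.card_eq_one.mp h.2
    have hXeq : X.1 = insert w (A0.1.erase v) := by
      ext x
      have h1 : x ∈ A0.1 \ X.1 ↔ x = v := by rw [hv, Finset.mem_singleton]
      have h2 : x ∈ X.1 \ A0.1 ↔ x = w := by rw [hw, Finset.mem_singleton]
      simp only [Finset.mem_sdiff, Finset.mem_insert, Finset.mem_erase] at h1 h2 ⊢
      tauto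
    have hvA : v ∈ A0.1 ∧ v ∉ X.1 := by
      have : v ∈ A0.1 \ X.1 := by rw [hv]; simp
      simpa using this
    have hwA : w ∈ X.1 ∧ w ∉ A0.1 := by
      have : w ∈ X.1 \ A0.1 := by rw [hw]; simp
      simpa using this
    have hv4 : v ∉ A4.1 := by
      intro hv4
      have : (A0.1 \ A4.1) ⊆ X.1 \ A4.1 := by
        intro x hx
        simp only [Finset.mem_sdiff] at hx ⊢
        refine ⟨?_, hx.2⟩
        rw [hXeq]
        refine Finset.mem_insert_of_mem (Finset.mem_erase.mpr ⟨?_, hx.1⟩)
        rintro rfl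
        exact hx.2 hv4
      have := Finset.card_le_card this
      omega
    have hw4 : w ∈ A4.1 := by
      by_contra hw4
      have : insert w ((A0.1 \ A4.1).erase v) ⊆ X.1 \ A4.1 := by
        intro x hx
        rw [hXeq]
        simp only [Finset.mem_sdiff, Finset.mem_insert, Finset.mem_erase] at hx ⊢
        rcases hx with rfl | hx
        · exact ⟨Or.inl rfl, hw4⟩
        · exact ⟨Or.inr ⟨hx.1, hx.2.1⟩, hx.2.2⟩
      have h5 := Finset.card_le_card this
      rw [Finset.card_insert_of_notMem, Finset.card_erase_of_mem] at h5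
      · omega
      · exact Finset.mem_sdiff.mpr ⟨hvA.1, hv4⟩
      · intro hmem
        simp only [Finset.mem_sdiff, Finset.mem_erase] at hmem
        exact hwA.2 hmem.2.1
    have hfree := X.2.2.1
    rw [hXeq] at hfree
    exact exchange v w (Finset.mem_sdiff.mpr ⟨hvA.1, hv4⟩) (Finset.mem_sdiff.mpr ⟨hw4, hwA.2⟩)
      hfree

/-- There are `k`, `n`, two `k`-triangulations `S`, `T` of the convex `n`-gon, a common edge `e` of
`S` and `T`, and a shortest path from `S` to `T` in the flip graph one of whose steps flips `e`. -/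
theorem result : ∃ (k n : ℕ) (S T : KTri k n) (e : Fin n × Fin n), e ∈ S.1 ∧ e ∈ T.1 ∧
    ∃ p : (flipGraph k n).Walk S T, (∀ q : (flipGraph k n).Walk S T, p.length ≤ q.length) ∧
      ∃ d ∈ p.darts, e ∈ d.fst.1 ∧ e ∉ d.snd.1 := by
  refine ⟨2, 8, A0, A4, (3, 7), ?_, ?_,
    .cons adj01 (.cons adj12 (.cons adj23 (.cons adj34 .nil))), ?_, ?_⟩
  · show (3, 7) ∈ L0.toFinset
    decide +kernel
  · show (3, 7) ∈ L4.toFinset
    decide +kernel
  · intro q
    exact four_le q
  · refine ⟨⟨(A0, A1), adj01⟩, by simp, ?_, ?_⟩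
    · show (3, 7) ∈ L0.toFinset
      decide +kernel
    · show (3, 7) ∉ L1.toFinset
      decide +kernel

end Pool.Agent.Results.MP_1d99bd_co.CommonEdgeFlipped
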